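import Pool.Agent.N561.AX.Stm
import Pool.Agent.N494.M1.Mirk

/-!
# Mirror images of packages with expansions (job AX8)
-/

set_option autoImplicit false

namespace Pool.Agent.N46.AX

open Finset Filter Topology Metric
open Pool.Agent.W711.HT hiding XX
open Pool.Agent.TH563.UV
open Pool.Agent.TH563.V
open Pool.Agent.W719.AX (UX GX)
open Pool.Agent.N561 Pool.Agent.N494.M1
open scoped Real

/-- unimodular factors `u N` which are compensated by the change `c` of the potential, up to the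
constant `e` -/
def Un (u : ℕ → ℂ) (c e : ℂ) : Prop :=
  (∀ N, ‖u N‖ = 1) ∧ c.re = 0 ∧ ∀ N : ℕ, u N * Complex.exp (-(N * c)) = e

theorem Un.norm {u : ℕ → ℂ} {c e : ℂ} (h : Un u c e) : ‖e‖ = 1 := by
  have h1 := h.2.2 0
  simp only [Nat.cast_zero, zero_mul, neg_zero, Complex.exp_zero, mul_one] at h1
  rw [← h1]
  exact h.1 0

theorem Un.one : Un (fun _ => 1) 0 1 := ⟨fun _ => by simp, by simp, fun _ => by simp⟩

theorem Un.mul {u v : ℕ → ℂ} {c d e f : ℂ} (h : Un u c e) (h' : Un v d f) :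
    Un (fun N => u N * v N) (c + d) (e * f) := by
  refine ⟨fun N => by rw [norm_mul, h.1, h'.1, one_mul],
    by rw [Complex.add_re, h.2.1, h'.2.1, add_zero], fun N => ?_⟩
  rw [← h.2.2 N, ← h'.2.2 N, mul_add, neg_add, Complex.exp_add]
  ring

theorem Un.neg {u : ℕ → ℂ} {c e : ℂ} (h : Un u c e) : Un (fun N => -(u N)) c (-e) := by
  refine ⟨fun N => by rw [norm_neg, h.1], h.2.1, fun N => ?_⟩
  rw [← h.2.2 N]
  ring

theorem Un.kid (b : Bool) : Un (fun _ => -1) (if b then 2 * π * Complex.I else 0) (-1) := by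
  refine ⟨fun _ => by simp, by cases b <;> simp, fun N => ?_⟩
  cases b
  · simp
  · simp only [if_true]
    have h1 : Complex.exp (-(N * (2 * π * Complex.I))) = 1 := by
      rw [Complex.exp_neg, Complex.exp_nat_mul_two_pi_mul_I, inv_one]
    rw [h1, mul_one]

theorem UX_mr {Y : ℕ → ℂ → ℂ} {A : ℕ → ℂ → ℂ} {S S' : Set ℂ} {e : ℂ} (he : ‖e‖ = 1)
    (hS : ∀ z ∈ S', rf z ∈ S) (h : UX Y A S) :
    UX (fun N z => e * mr (Y N) z) (fun k z => e * mr (A k) z) S' := by
  intro K
  obtain ⟨C, hC⟩ := h K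
  refine ⟨C, hC.mono fun N hN z hz => ?_⟩
  have h1 := hN (rf z) (hS z hz)
  have h2 : e * mr (Y N) z - ∑ k ∈ range K, e * mr (A k) z / (N : ℂ) ^ k =
      e * (starRingEnd ℂ) (Y N (rf z) - ∑ k ∈ range K, A k (rf z) / (N : ℂ) ^ k) := by
    rw [map_sub, map_sum, mul_sub, mul_sum]
    congr 1
    refine sum_congr rfl fun k _ => ?_
    rw [map_div₀, map_pow, map_natCast, mul_div_assoc]
    rfl
  rw [h2, norm_mul, he, one_mul, Complex.norm_conj]
  exact h1

theorem fac {u : ℕ → ℂ} {d e : ℂ} (hu : Un u d e) (N m : ℕ) (F X : ℂ) :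
    (N : ℂ) ^ (2 * m) * (-1) ^ (N * m) * Complex.exp (-(N * ((starRingEnd ℂ) F + d))) *
      (u N * (starRingEnd ℂ) X) =
    e * (starRingEnd ℂ) ((N : ℂ) ^ (2 * m) * (-1) ^ (N * m) * Complex.exp (-(N * F)) * X) := by
  have h1 : (starRingEnd ℂ) (Complex.exp (-(N * F))) = Complex.exp (-(N * (starRingEnd ℂ) F)) := by
    rw [← Complex.exp_conj, map_neg, map_mul, map_natCast]
  rw [map_mul, map_mul, map_mul, map_pow, map_pow, map_natCast, map_neg, map_one, h1,
    ← hu.2.2 N, mul_add, neg_add, Complex.exp_add]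
  ring

theorem GX_mr {ρ τ : ℝ} {m : ℕ} {X : ℕ → ℂ → ℂ} {F : ℂ → ℂ} {A : ℕ → ℂ → ℂ} {u : ℕ → ℂ}
    {d e : ℂ} (hu : Un u d e) (h : GX ρ τ m X F A) :
    GX ρ τ m (fun N w => u N * mr (X N) w) (fun w => mr F w + d) (fun k z => e * mr (A k) z) := by
  have he := hu.norm
  have he0 : e ≠ 0 := by
    rintro rfl
    simp at he
  refine ⟨?_, fun k => ?_, fun z hz => ?_⟩
  · have h1 := UX_mr he (fun z hz => (rf_mem ρ τ z).2 hz) h.ux
    have e1 : (fun (N : ℕ) (z : ℂ) => (N : ℂ) ^ (2 * m) * (-1) ^ (N * m) *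
        Complex.exp (-(N * (mr F z + d))) * (u N * mr (X N) z)) =
        fun (N : ℕ) (z : ℂ) => e * mr (fun z => (N : ℂ) ^ (2 * m) * (-1) ^ (N * m) *
          Complex.exp (-(N * F z)) * X N z) z := by
      funext N z
      exact fac hu N m (F (rf z)) (X N (rf z))
    rw [e1]
    exact h1
  · exact (differentiableOn_mr (h.an k) (rc_open ρ τ)).const_mul e
  · refine mul_ne_zero he0 ?_
    unfold mr
    rw [Ne, map_eq_zero]
    exact h.nz _ ((rf_mem ρ τ z).2 hz)

/-- job AX8 -/
theorem mirkx : Pool.Agent.N561.AX.S_MIRKX := by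
  intro n a z₀ S hK g hg
  obtain ⟨U, P, C, r₂, c₁, C₁, hK, hR⟩ := hK g hg
  refine ⟨{φ | rf φ ∈ U},
    fun j m X Φ => ∃ (u : ℕ → ℂ) (c e : ℂ), Un u c e ∧
      P j m (fun N φ => u N * mr (X N) φ) (fun φ => mr Φ φ + c),
    fun m X Φ => ∃ (u : ℕ → ℂ) (c e : ℂ), Un u c e ∧
      C m (fun N φ => u N * mr (X N) φ) (fun φ => mr Φ φ + c),
    r₂, c₁, C₁, ⟨hK.hr₂, hK.hc₁, hK.hC₁, ?_, ?_, ?_, ?_⟩, ?_⟩
  · refine ⟨fun _ => 1, 0, 1, Un.one, ?_⟩
    have h := hK.zero
    have e1 : (fun (_ : ℕ) (φ : ℂ) => (1 : ℂ) * mr (fun _ => 1) φ) = fun _ _ => 1 := by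
      funext N φ
      simp [mr]
    have e2 : (fun φ : ℂ => mr (fun _ => 0) φ + 0) = fun _ => 0 := by
      funext φ
      simp [mr]
    rw [e2]
    change P 0 0 (fun (_ : ℕ) (φ : ℂ) => (1 : ℂ) * mr (fun _ => 1) φ) _
    rw [e1]
    exact h
  · rintro j m m' X Y Φ Φ' ⟨u, c, f, hu, h1⟩ ⟨v, d, f', hv, h2⟩
    refine ⟨fun N => u N * v N, c + d, f * f', hu.mul hv, ?_⟩
    have h := hK.succ j _ _ _ _ _ _ h1 h2
    have e1 : (fun (N : ℕ) (φ : ℂ) => u N * v N * mr (fun w => X N w * Y N w) φ) =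
        fun N φ => u N * mr (X N) φ * (v N * mr (Y N) φ) := by
      funext N φ
      simp only [mr, map_mul]
      ring
    have e2 : (fun φ : ℂ => mr (fun w => Φ w + Φ' w) φ + (c + d)) =
        fun φ => mr Φ φ + c + (mr Φ' φ + d) := by
      funext φ
      simp only [mr, map_add]
      ring
    rw [e2]
    change P (j + 1) (m + m') (fun N φ => u N * v N * mr (fun w => X N w * Y N w) φ) _
    rw [e1]
    exact h
  · intro a₀ b₀ h1 h2 h3
    obtain ⟨κ₁, hκ, hS⟩ := hK.step a₀ b₀ h1 h2 h3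
    refine ⟨κ₁, hκ, ?_⟩
    rintro m X Φ ⟨u, c, f, hu, hP⟩
    obtain ⟨F1, zs1, A1, hG, hX, hZ⟩ := hS m _ _ hP
    have e1 : (fun (N : ℕ) (w : ℂ) => -(u N) *
        mr (stp a (fun N φ => u N * mr (X N) φ) N) w) = stp (-a) X := by
      funext N w
      have e2 : mr (stp a (fun N φ => u N * mr (X N) φ) N) w =
          (starRingEnd ℂ) (u N) * mr (stp a (fun N => mr (X N)) N) w := by
        unfold mr
        rw [← map_mul, ← stp_smul]
      have e3 : (fun N => mr (mr (X N))) = X := by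
        funext N
        exact mr_mr _
      rw [e2, mr_stp, e3]
      linear_combination (stp (-a) X N w) * mul_cj (hu.1 N)
    refine ⟨fun w => mr F1 w + c, fun ψ => rf (zs1 (rf ψ)), fun k z => -f * mr (A1 k) z,
      ?_, ?_, ?_⟩
    · have hG' := GoodV_mr (fun N => -(u N)) (fun N => by rw [norm_neg, hu.1]) hu.2.1 hG
      rw [← e1]
      exact hG'
    · have hX' := GX_mr hu.neg hX
      rw [← e1]
      exact hX'
    · intro ψ hψ
      obtain ⟨q1, q2, q3, q4, q5⟩ := hZ (rf ψ) ((rf_mem _ _ _).2 hψ)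
      set z1 := zs1 (rf ψ) with hz1
      refine ⟨?_, ?_, ?_, ?_, ?_⟩
      · change ‖rf z1 - rf z₀‖ ≤ g
        rw [← rf_sub, norm_rf]
        exact q1
      · change rf (rf z1) ∈ U
        rw [rf_rf]
        exact q2
      · have h := crit_mr a z1 _ _ q3
        rw [← d_Phi, ← d_S1] at h
        exact h
      · change (starRingEnd ℂ) (F1 (rf ψ)) + c = qq (-a) Φ (rf z1) + mir2 S ψ (rf z1)
        rw [q4, mir2_eq, rf_rf, map_add]
        have h := qq_mr a z1 (mr Φ z1 + c)
        have e : (starRingEnd ℂ) (mr Φ z1 + c) = Φ (rf z1) - c := by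
          rw [map_add, conj_of_re hu.2.1]
          unfold mr
          rw [Complex.conj_conj]
          ring
        rw [e] at h
        unfold qq
        rw [h]
        ring
      · change HasDerivAt (fun w => mr F1 w + c) (deriv (fun w => mir2 S w (rf z1)) ψ) ψ
        rw [d_S2']
        exact (hasDerivAt_mr q5).add_const c
  · intro e r₀ κ₁ c C' h1 h2 h3 h4 h5 h6
    obtain ⟨K, hK0, hS⟩ := hK.kid e r₀ κ₁ c C' h1 h2 h3 h4 h5 h6
    refine ⟨K, hK0, ?_⟩
    intro t m X F A hG hX b a' hb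
    have hG1 : GoodV e e κ₁ c C' t (fun N => mr (X N)) (mr F) := by
      have h := GoodV_mr (fun _ => 1) (fun _ => by simp) (d := 0) (by simp) hG
      simpa only [one_mul, add_zero] using h
    have hX1 : GX e e m (fun N => mr (X N)) (mr F) (fun k z => 1 * mr (A k) z) := by
      have h := GX_mr Un.one hX
      simpa only [one_mul, add_zero] using h
    obtain ⟨F1, zs1, hC, hZ⟩ := hS t m (fun N => mr (X N)) (mr F) _ hG1 hX1 b (-a') (fun h => by
      have := hb h
      push_cast at this ⊢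
      rw [neg_sq]
      exact this)
    set d : ℂ := if b then 2 * π * Complex.I else 0 with hd
    have hU : Un (fun _ => -1) d (-1) := by
      rw [hd]
      exact Un.kid b
    have hd0 : d.re = 0 := hU.2.1
    refine ⟨fun w => mr F1 w + d, fun φ => rf (zs1 (rf φ)), ⟨fun _ => -1, d, -1, hU, ?_⟩, ?_⟩
    · have e1 : (fun (N : ℕ) (w : ℂ) => -1 * mr (stpb b a' X N) w) =
          stpb b (-a') (fun N => mr (X N)) := by
        funext N w
        rw [mr_stpb]
        ring
      have e2 : (fun w => mr (fun w => mr F1 w + d) w + d) = F1 := by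
        funext w
        change (starRingEnd ℂ) ((starRingEnd ℂ) (F1 (rf (rf w))) + d) + d = F1 w
        rw [map_add, conj_of_re hd0, rf_rf, Complex.conj_conj]
        ring
      rw [e2, e1]
      exact hC
    · intro φ hφ
      obtain ⟨q1, q2, q3, q4, q5, q6⟩ := hZ (rf φ) hφ
      set z1 := zs1 (rf φ) with hz1
      refine ⟨(rf_mem _ _ _).2 q1, by rw [norm_rf]; exact q2, fun h => by
          change rf z1 = 0
          rw [q3 h, rf_zero],
        fun h => ⟨CPu_mr (q4 h).1, ?_⟩, ?_, ?_⟩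
      · have h' := crit_mr (-a') z1 _ _ (q4 h).2
        have e0 : deriv F (rf z1) = -(starRingEnd ℂ) (deriv (mr F) z1) := by
          rw [deriv_mr]
          simp
        rw [← e0, ← d_S2, neg_neg] at h'
        exact h'
      · change (starRingEnd ℂ) (F1 (rf φ)) + d = vt b a' (rf z1) + F (rf z1) + mir2 S (rf z1) φ
        rw [q5, mir2_eq, rf_rf, map_add, map_add, vt_mr]
        unfold mr
        rw [Complex.conj_conj]
        ring
      · change HasDerivAt (fun w => mr F1 w + d) (deriv (fun w => mir2 S (rf z1) w) φ) φ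
        rw [d_S1']
        exact (hasDerivAt_mr q6).add_const d
  · rintro m X Φ ⟨u, c, f, hu, hP⟩
    obtain ⟨z, y, q1, q2, q3, q4, q5⟩ := hR m _ _ hP
    have hf := hu.norm
    have hf0 : -f ≠ 0 := by
      rw [Ne, neg_eq_zero]
      rintro rfl
      simp at hf
    refine ⟨rf z, fun k => -f * (starRingEnd ℂ) (y k), ?_, ?_, ?_, ?_, ?_⟩
    · change ‖rf z - rf z₀‖ ≤ g
      rw [← rf_sub, norm_rf]
      exact q1
    · change rf (rf z) ∈ U
      rw [rf_rf]
      exact q2
    · have h := crit_mr' a z _ q3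
      rw [← d_Phi] at h
      exact h
    · refine mul_ne_zero hf0 ?_
      rw [Ne, map_eq_zero]
      exact q4
    · have e1 : qq (-a) Φ (rf z) =
          (starRingEnd ℂ) (qq a (fun φ => mr Φ φ + c) z) + c := by
        have h := qq_mr a z (mr Φ z + c)
        have e : (starRingEnd ℂ) (mr Φ z + c) = Φ (rf z) - c := by
          rw [map_add, conj_of_re hu.2.1]
          unfold mr
          rw [Complex.conj_conj]
          ring
        rw [e] at h
        unfold qq
        rw [h]
        ring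
      have e2 : ∀ N : ℕ, (upp (1 / N) fun φ => Ea (-a) N φ * X N φ * kr N φ) =
          -(u N) * (starRingEnd ℂ)
            (upp (1 / N) fun φ => Ea a N φ * (u N * mr (X N) φ) * kr N φ) := by
        intro N
        have e3 : (fun φ => Ea a N φ * (u N * mr (X N) φ) * kr N φ) =
            fun φ => u N * (Ea a N φ * mr (X N) φ * kr N φ) := by
          funext φ
          ring
        rw [e3, upp_smul, mr_rt, map_mul, map_neg, Complex.conj_conj]
        linear_combination -(upp (1 / N) fun φ => Ea (-a) N φ * X N φ * kr N φ) *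
          mul_cj (hu.1 N)
      intro K
      obtain ⟨B, hB⟩ := q5 K
      refine ⟨B, hB.mono fun N hN p hp => ?_⟩
      have h1 := hN p hp
      have hcj : ∀ (W V : ℂ), (N : ℂ) ^ (2 * m) * (Real.sqrt N : ℂ) * (-1) ^ (N * (m + 1)) *
          Complex.exp (-(N * ((starRingEnd ℂ) V + c))) * (-(u N) * (starRingEnd ℂ) W) =
          -f * (starRingEnd ℂ) ((N : ℂ) ^ (2 * m) * (Real.sqrt N : ℂ) * (-1) ^ (N * (m + 1)) *
            Complex.exp (-(N * V)) * W) := by
        intro W V
        have h2 : (starRingEnd ℂ) (Complex.exp (-(N * V))) =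
            Complex.exp (-(N * (starRingEnd ℂ) V)) := by
          rw [← Complex.exp_conj, map_neg, map_mul, map_natCast]
        have h0 : Complex.exp (-(N * ((starRingEnd ℂ) V + c))) =
            Complex.exp (-(N * (starRingEnd ℂ) V)) * Complex.exp (-(N * c)) := by
          rw [← Complex.exp_add]
          congr 1
          ring
        rw [map_mul, map_mul, map_mul, map_mul, map_pow, map_pow, map_natCast, map_neg, map_one,
          Complex.conj_ofReal, h2, ← hu.2.2 N, h0]
        ring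
      have h3 : (N : ℂ) ^ (2 * m) * (Real.sqrt N : ℂ) * (-1) ^ (N * (m + 1)) *
          Complex.exp (-(N * qq (-a) Φ (rf z))) *
          (upp (1 / N) fun φ => Ea (-a) N φ * X N φ * kr N φ) -
          ∑ k ∈ range K, -f * (starRingEnd ℂ) (y k) / (N : ℂ) ^ k =
          -f * (starRingEnd ℂ) ((N : ℂ) ^ (2 * m) * (Real.sqrt N : ℂ) * (-1) ^ (N * (m + 1)) *
            Complex.exp (-(N * qq a (fun φ => mr Φ φ + c) z)) *
            (upp (1 / N) fun φ => Ea a N φ * (u N * mr (X N) φ) * kr N φ) -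
            ∑ k ∈ range K, y k / (N : ℂ) ^ k) := by
        rw [e2, e1, hcj, map_sub, mul_sub, map_sum, mul_sum]
        congr 1
        refine sum_congr rfl fun k _ => ?_
        rw [map_div₀, map_pow, map_natCast, mul_div_assoc]
      change ‖(N : ℂ) ^ (2 * m) * (Real.sqrt N : ℂ) * (-1) ^ (N * (m + 1)) *
          Complex.exp (-(N * qq (-a) Φ (rf z))) *
          (upp (1 / N) fun φ => Ea (-a) N φ * X N φ * kr N φ) -
          ∑ k ∈ range K, -f * (starRingEnd ℂ) (y k) / (N : ℂ) ^ k‖ ≤ _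
      rw [h3, norm_mul, norm_neg, hf, one_mul, Complex.norm_conj]
      exact h1

end Pool.Agent.N46.AX
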